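import Pool.Agent.H.MP_417230_al.C
import Pool.Agent.H.MP_54b62b_gt.Defs

namespace Pool.Agent.Results.MP_27feec_al.Yes

open Filter Topology Pool.Agent.H.MP_417230_al Pool.Agent.H.MP_54b62b_gt

theorem result (G : Type) [AddCommGroup G] [UniformSpace G] [IsUniformAddGroup G] [T2Space G]
    [CompleteSpace G] (hG : LocMin G) (K : AddSubgroup G) (hK : IsCompact (K : Set G)) :
    LocMin (G ⧸ K) := by
  obtain ⟨V, hV, hL⟩ := hG
  obtain ⟨W, w1, w2⟩ := lm_le hL hV
  obtain ⟨W', w3, w4⟩ := main w1 w2 hK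
  have key (P : Filter (G ⧸ K)) (hP : GF P) (h2 : ∀ z, ClusterPt z P → z = 0)
      (h4 : QuotientAddGroup.mk '' W' ∈ P) : P ≤ 𝓝 0 := fun U hU => by
    have gP := hP.comap (QuotientAddGroup.mk' K)
    obtain ⟨C, -, c1, c2⟩ := cluster gP (w4 _ gP (mem_of_superset (preimage_mem_comap h4)
      fun x ⟨y, hy, e⟩ => ⟨x - y, QuotientAddGroup.eq_iff_sub_mem.1 e.symm, by simpa using hy⟩))
    obtain ⟨O, o1, o2⟩ := c2 _ (QuotientAddGroup.continuous_mk.tendsto 0 hU)
    refine mem_of_superset o1 fun z hz => ?_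
    obtain ⟨x, rfl⟩ := QuotientAddGroup.mk_surjective z
    obtain ⟨k, k1, k2⟩ := o2 hz
    simpa [h2 _ ((c1 k k1).map QuotientAddGroup.continuous_mk.continuousAt tendsto_comap)] using k2
  exact ⟨_, QuotientAddGroup.isOpenMap_coe.image_mem_nhds w3,
    fun σ h1 h2 h3 h4 => IsTopologicalAddGroup.ext h1 inferInstance
      (le_antisymm (key _ (@GF.nhds _ _ σ h1) (fun z hz => @eq_of_nhds_neBot _ σ h2 _ _
        (NeBot.mono hz (inf_le_inf_right _ (nhds_mono h3)))) h4) (nhds_mono h3))⟩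

end Pool.Agent.Results.MP_27feec_al.Yes
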